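import Mathlib
import Pool.Agent.H.MP_cc2bbb_co.A

set_option autoImplicit false
set_option linter.unusedSectionVars false

namespace Pool.Agent.H.MP_891b03_co

open Finset SimpleGraph

section words
variable {ι X Z A : Type}

def act (t : ι → Z → Z) (w : List ι) (z : Z) : Z := w.foldr t z

@[simp] lemma act_nil (t : ι → Z → Z) (z : Z) : act t [] z = z := rfl
@[simp] lemma act_cons (t : ι → Z → Z) (k : ι) (w : List ι) (z : Z) :
    act t (k :: w) z = t k (act t w z) := rfl
@[simp] lemma act_append (t : ι → Z → Z) (p q : List ι) (z : Z) :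
    act t (p ++ q) z = act t p (act t q z) := by simp [act]

lemma act_rev {t : ι → Z → Z} (ht : ∀ k z, t k (t k z) = z) (w : List ι) (z : Z) :
    act t w.reverse (act t w z) = z := by
  induction w with
  | nil => rfl
  | cons k w ih => simp [ht, ih]

def Free (s : ι → X → X) (g : ℕ) : Prop :=
  ∀ x w, List.IsChain (· ≠ ·) w → w ≠ [] → w.length ≤ g → act s w x ≠ x

lemma closed {s : ι → X → X} {t : ι → Z → Z} {g : ℕ} (hs : ∀ k z, s k (s k z) = z)
    (hf : Free s g) (ht : ∀ k z, t k (t k z) = z) (w : List ι) :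
    w.length ≤ g → ∀ x, act s w x = x → ∀ z, act t w z = z := by
  induction' hn : w.length using Nat.strong_induction_on with n ih generalizing w
  intro hl x hx z
  by_cases hc : List.IsChain (· ≠ ·) w
  · by_cases h0 : w = []
    · rw [h0]; rfl
    · exact absurd hx (hf x w hc h0 (by omega))
  · rw [List.isChain_iff_forall_rel_of_append_cons_cons] at hc
    push Not at hc
    obtain ⟨a, b, l1, l2, rfl, rfl⟩ := hc
    simp only [List.length_append, List.length_cons] at hn
    have := ih (l1 ++ l2).length (by simp; omega) (l1 ++ l2) rfl (by simp; omega) x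
      (by simpa [hs] using hx) z
    simpa [ht] using this

lemma same {s : ι → X → X} {t : ι → Z → Z} {g : ℕ} (hs : ∀ k z, s k (s k z) = z)
    (hf : Free s g) (ht : ∀ k z, t k (t k z) = z) {p q : List ι} (hl : p.length + q.length ≤ g)
    {x : X} (h : act s p x = act s q x) (z : Z) : act t p z = act t q z := by
  have h1 := closed hs hf ht (q.reverse ++ p) (by simp; omega) x
    (by rw [act_append, h, act_rev hs]) z
  have h2 := act_rev ht q.reverse (act t p z)
  rw [List.reverse_reverse, ← act_append t q.reverse, h1] at h2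
  exact h2.symm

variable [AddCommGroup A]

def vol (s : ι → X → X) (σ : X → ι → A) : List ι → X → A
  | [], _ => 0
  | k :: w, x => vol s σ w x + σ (act s w x) k

lemma vol_append (s : ι → X → X) (σ : X → ι → A) (p q : List ι) (x : X) :
    vol s σ (p ++ q) x = vol s σ q x + vol s σ p (act s q x) := by
  induction p with
  | nil => simp [vol]
  | cons k p ih => simp [vol, ih, add_assoc]

lemma act_lift (s : ι → X → X) (σ : X → ι → A) (w : List ι) (x : X) :
    act (fun k (y : X × A) => (s k y.1, y.2 + σ y.1 k)) w (x, 0) = (act s w x, vol s σ w x) := by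
  induction w with
  | nil => rfl
  | cons k w ih => simp [ih, vol]

lemma same2 {X' : Type} {s : ι → X → X} {s' : ι → X' → X'} {σ : X' → ι → A} {g : ℕ}
    (hs : ∀ k z, s k (s k z) = z) (hf : Free s g) (hs' : ∀ k z, s' k (s' k z) = z)
    (hσ : ∀ k x, σ (s' k x) k = - σ x k) {p q : List ι} (hl : p.length + q.length ≤ g)
    {x : X} (h : act s p x = act s q x) (x' : X') :
    act s' p x' = act s' q x' ∧ vol s' σ p x' = vol s' σ q x' := by
  have := same (t := fun k (y : X' × A) => (s' k y.1, y.2 + σ y.1 k)) hs hf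
    (fun k z => by simp [hs', hσ]) hl h (x', 0)
  rw [act_lift, act_lift] at this
  exact Prod.mk.inj this

end words

lemma base (D g : ℕ) : ∃ (X : Type) (_ : Fintype X) (_ : Nonempty X) (s : Fin D → X → X),
    (∀ k x, s k (s k x) = x) ∧ Free s g ∧ ∀ x y, ∃ w, act s w x = y := by
  classical
  obtain ⟨Γ, _, ⟨x0⟩, s, c, hs, h0, h1⟩ := MP_cc2bbb_co.grp D g
  have hc : ∀ x w, List.IsChain (· ≠ ·) w → w.length ≤ g → c (act s w x) x = w := by
    intro x w
    induction w with
    | nil => exact fun _ _ => h0 x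
    | cons k w ih =>
      intro h hl
      have h2 := ih h.tail (by simp at hl; omega)
      rw [act_cons, h1, h2]
      · rw [h2]
        intro h3
        cases w with
        | nil => simp at h3
        | cons j w => exact (List.isChain_cons_cons.1 h).1 (by simpa using h3.symm)
      · rw [h2]; simp at hl; omega
  let X := {y : Γ // ∃ w, act s w x0 = y}
  let t : Fin D → X → X := fun k y => ⟨s k y.1, y.2.elim fun w hw => ⟨k :: w, by simp [hw]⟩⟩
  have ht : ∀ w (y : X), (act t w y).1 = act s w y.1 := by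
    intro w y
    induction w with
    | nil => rfl
    | cons k w ih => simp [t, ih]
  refine ⟨X, inferInstance, ⟨⟨x0, [], rfl⟩⟩, t, fun k x => Subtype.ext (hs k x.1),
    fun x w h h' hl hx => h' ?_, fun x y => ?_⟩
  · have := hc x.1 w h hl
    rw [← ht, hx, h0] at this
    exact this.symm
  · obtain ⟨p, hp⟩ := x.2
    obtain ⟨q, hq⟩ := y.2
    exact ⟨q ++ p.reverse, Subtype.ext (by rw [ht, act_append, ← hp, act_rev hs, hq])⟩

lemma frust {R S : Type} [Fintype R] [Fintype S] [DecidableEq R] (f : S → R → ZMod 2) (θ : ℕ)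
    (h : (Fintype.card S : ℝ) * 2 ^ θ * (3 / 4) ^ Fintype.card R < 1) :
    ∃ τ : R → ZMod 2, ∀ a, θ ≤ (univ.filter fun r => τ r = f a r).card := by
  by_contra hc
  push Not at hc
  have h1 : ∀ a, ∑ τ : R → ZMod 2, ∏ r, (if τ r = f a r then (1 / 2 : ℝ) else 1) =
      (3 / 2) ^ Fintype.card R := by
    intro a
    rw [← Fintype.piFinset_univ, ← prod_univ_sum (fun _ => univ)
      fun r (b : ZMod 2) => if b = f a r then (1 / 2 : ℝ) else 1, ← card_univ, ← prod_const]
    refine prod_congr rfl fun r _ => ?_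
    rw [← Finset.add_sum_erase _ _ (mem_univ (f a r)), if_pos rfl,
      Finset.sum_congr rfl (fun b hb => if_neg (ne_of_mem_erase hb))]
    simp
    norm_num
  have h2 : ∀ τ : R → ZMod 2,
      (1 / 2 : ℝ) ^ θ ≤ ∑ a, ∏ r, (if τ r = f a r then (1 / 2 : ℝ) else 1) := by
    intro τ
    obtain ⟨a, ha⟩ := hc τ
    refine le_trans ?_ (single_le_sum (f := fun a => ∏ r, (if τ r = f a r then (1 / 2 : ℝ) else 1))
      (fun a _ => prod_nonneg fun r _ => by split_ifs <;> norm_num) (mem_univ a))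
    rw [prod_ite, prod_const, prod_const_one, mul_one]
    exact pow_le_pow_of_le_one (by norm_num) (by norm_num) ha.le
  have h3 := sum_le_sum (s := univ) fun τ _ => h2 τ
  rw [sum_comm] at h3
  simp only [h1, sum_const, card_univ, Fintype.card_fun, ZMod.card, nsmul_eq_mul] at h3
  push_cast at h3
  have h4 : ((3 : ℝ) / 2) ^ Fintype.card R = (3 / 4) ^ Fintype.card R * 2 ^ Fintype.card R := by
    rw [← mul_pow]; norm_num
  have h5 : (0 : ℝ) < 2 ^ Fintype.card R := by positivity
  have h6 : (1 / 2 : ℝ) ^ θ * 2 ^ θ = 1 := by rw [← mul_pow]; norm_num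
  have h7 : (0 : ℝ) < 2 ^ θ := by positivity
  rw [h4] at h3
  have h8 := mul_le_mul_of_nonneg_right h3 h7.le
  nlinarith

lemma ball_half {V V' : Type} {G : SimpleGraph V} {G' : SimpleGraph V'} {v : V} {v' : V'} {r : ℕ}
    (ρ : ℕ → V → V' → Prop) (h0 : ρ 0 v v')
    (f : ∀ l a a' b, l ≤ r → ρ l a a' → G.Adj a b → ∃ b', ρ (l + 1) b b' ∧ G'.Adj a' b') :
    ∀ n, n ≤ r → ∀ a (p : G.Walk a v), p.length = n →
      ∃ a', ρ n a a' ∧ ∃ q : G'.Walk a' v', q.length = n := by
  intro n
  induction n with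
  | zero =>
    intro _ a p hp
    obtain rfl := Walk.eq_of_length_eq_zero hp
    exact ⟨v', h0, .nil, rfl⟩
  | succ n ih =>
    intro hn a p hp
    cases p with
    | nil => simp at hp
    | cons h p =>
      obtain ⟨b', h1, q, hq⟩ := ih (by omega) _ p (by simpa using hp)
      obtain ⟨a', h2, h3⟩ := f n _ _ a (by omega) h1 h.symm
      exact ⟨a', h2, .cons h3.symm q, by simp [hq]⟩

lemma ball_iso {V V' : Type} {G : SimpleGraph V} {G' : SimpleGraph V'} (hG : G.Connected)
    (hG' : G'.Connected) {v : V} {v' : V'} {r : ℕ} (ρ : ℕ → V → V' → Prop) (h0 : ρ 0 v v')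
    (mono : ∀ l m a a', l ≤ m → ρ l a a' → ρ m a a')
    (f : ∀ l a a' b, l ≤ r → ρ l a a' → G.Adj a b → ∃ b', ρ (l + 1) b b' ∧ G'.Adj a' b')
    (f' : ∀ l a' a b', l ≤ r → ρ l a a' → G'.Adj a' b' → ∃ b, ρ (l + 1) b b' ∧ G.Adj a b)
    (u : ∀ a a' b', ρ (r + 1) a a' → ρ (r + 1) a b' → a' = b')
    (u' : ∀ a b a', ρ (r + 1) a a' → ρ (r + 1) b a' → a = b) :
    ∃ φ : {w // G.dist v w ≤ r} ≃ {w // G'.dist v' w ≤ r},
      (∀ a, a.1 = v ↔ (φ a).1 = v') ∧ ∀ a b, G.Adj a.1 b.1 ↔ G'.Adj (φ a).1 (φ b).1 := by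
  have e1 : ∀ a : {w // G.dist v w ≤ r}, ∃ a' : {w // G'.dist v' w ≤ r}, ρ r a.1 a'.1 := by
    rintro ⟨a, ha⟩
    obtain ⟨p, hp⟩ := (hG a v).exists_walk_length_eq_dist
    rw [dist_comm] at hp
    obtain ⟨a', h1, q, hq⟩ := ball_half ρ h0 f _ ha a p hp
    exact ⟨⟨a', by rw [dist_comm]; exact (dist_le q).trans (hq ▸ ha)⟩, mono _ _ _ _ ha h1⟩
  have e2 : ∀ a' : {w // G'.dist v' w ≤ r}, ∃ a : {w // G.dist v w ≤ r}, ρ r a.1 a'.1 := by
    rintro ⟨a, ha⟩
    obtain ⟨p, hp⟩ := (hG' a v').exists_walk_length_eq_dist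
    rw [dist_comm] at hp
    obtain ⟨a', h1, q, hq⟩ := ball_half (fun l a' a => ρ l a a') h0 f' _ ha a p hp
    exact ⟨⟨a', by rw [dist_comm]; exact (dist_le q).trans (hq ▸ ha)⟩, mono _ _ _ _ ha h1⟩
  choose φ hφ using e1
  choose ψ hψ using e2
  have m : ∀ {a a'}, ρ r a a' → ρ (r + 1) a a' := fun h => mono _ _ _ _ (by omega) h
  have m0 := mono _ (r + 1) _ _ (by omega) h0
  refine ⟨⟨φ, ψ, fun a => Subtype.ext (u' _ _ _ (m (hψ _)) (m (hφ a))),
    fun a => Subtype.ext (u _ _ _ (m (hφ _)) (m (hψ a)))⟩, fun a => ⟨fun h => ?_, fun h => ?_⟩,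
    fun a b => ⟨fun h => ?_, fun h => ?_⟩⟩
  · exact u _ _ _ (m (hφ a)) (by rw [h]; exact m0)
  · exact u' _ _ _ (m (hφ a)) (by rw [show (φ a).1 = v' from h]; exact m0)
  · obtain ⟨b', h1, h2⟩ := f r _ _ _ le_rfl (hφ a) h
    rw [u _ _ _ h1 (m (hφ b))] at h2
    exact h2
  · obtain ⟨c, h1, h2⟩ := f' r _ _ _ le_rfl (hφ a) h
    rw [u' _ _ _ h1 (m (hφ b))] at h2
    exact h2

lemma dist_mul {V : Type} {G H : SimpleGraph V} (hG : G.Connected) (hH : H.Connected)
    (h : ∀ a b, G.Adj a b → H.dist a b ≤ 2) (a b : V) : H.dist a b ≤ 2 * G.dist a b := by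
  obtain ⟨p, hp⟩ := (hG a b).exists_walk_length_eq_dist
  rw [← hp]
  clear hp
  induction p with
  | nil => simp
  | @cons u v w h1 p ih =>
    have := hH.dist_triangle (u := u) (v := v) (w := w)
    have := h _ _ h1
    simp only [Walk.length_cons]
    omega

lemma half {α : Type} [DecidableEq α] (F : Finset α) (r : α → α) (P : α → Prop) [DecidablePred P]
    (hr : ∀ a, r (r a) = a) (hF : ∀ a ∈ F, r a ∈ F) (h : ∀ a ∈ F, P a ∨ P (r a)) :
    F.card ≤ 2 * (F.filter P).card := by
  have h1 : F ⊆ F.filter P ∪ (F.filter P).image r := by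
    intro a ha
    rcases h a ha with h | h
    · exact mem_union_left _ (mem_filter.2 ⟨ha, h⟩)
    · exact mem_union_right _ (mem_image.2 ⟨r a, mem_filter.2 ⟨hF a ha, h⟩, hr a⟩)
  have h2 := (card_le_card h1).trans (card_union_le _ _)
  have h3 := card_image_le (s := F.filter P) (f := r)
  omega

section tw
variable {ι X : Type}

def tt (s : ι → X → X) (σ : X → ι → ZMod 2) : Option ι → X × ZMod 2 → X × ZMod 2
  | none, y => (y.1, y.2 + 1)
  | some k, y => (s k y.1, y.2 + 1 + σ y.1 k)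

lemma act_tt (s : ι → X → X) (σ : X → ι → ZMod 2) (p : List (Option ι)) (y : X × ZMod 2) :
    act (tt s σ) p y =
      (act s (p.filterMap id) y.1, y.2 + p.length + vol s σ (p.filterMap id) y.1) := by
  induction p with
  | nil => simp [vol]
  | cons k p ih =>
    cases k with
    | none => simp [ih, tt]; ring
    | some k => simp [ih, tt, vol]; ring

lemma tt_tt {s : ι → X → X} {σ : X → ι → ZMod 2} (hs : ∀ k z, s k (s k z) = z)
    (hσ : ∀ k x, σ (s k x) k = - σ x k) (k : Option ι) (y : X × ZMod 2) :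
    tt s σ k (tt s σ k y) = y := by
  have h : ∀ a b : ZMod 2, a + 1 + 1 = a ∧ a + 1 + b + 1 + -b = a := by decide
  cases k with
  | none => simp only [tt, (h _ 0).1]
  | some k => simp only [tt, hs, hσ, (h _ _).2]

lemma loc {X' : Type} {s : ι → X → X} {σ : X → ι → ZMod 2} {s' : ι → X' → X'}
    {σ' : X' → ι → ZMod 2} {g : ℕ} (hs : ∀ k z, s k (s k z) = z) (hf : Free s g)
    (hσ : ∀ k x, σ (s k x) k = - σ x k) (hs' : ∀ k z, s' k (s' k z) = z)
    (hσ' : ∀ k x, σ' (s' k x) k = - σ' x k) {p q : List (Option ι)}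
    (hl : p.length + q.length ≤ g) {y : X × ZMod 2} (h : act (tt s σ) p y = act (tt s σ) q y)
    (y' : X' × ZMod 2) : act (tt s' σ') p y' = act (tt s' σ') q y' := by
  rw [act_tt, act_tt, Prod.mk.injEq] at h ⊢
  have l1 := List.length_filterMap_le id p
  have l2 := List.length_filterMap_le id q
  have h1 := same2 hs hf hs hσ (by omega) h.1 y.1
  have h2 := same2 hs hf hs' hσ' (by omega) h.1 y'.1
  refine ⟨h2.1, ?_⟩
  have h3 := h.2
  rw [h1.2, add_left_inj, add_right_inj] at h3
  rw [h2.2, h3]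

lemma tt_trans {s : ι → X → X} (σ : X → ι → ZMod 2) (h : ∀ x y, ∃ w, act s w x = y)
    (y y' : X × ZMod 2) : ∃ p, act (tt s σ) p y = y' := by
  obtain ⟨w, hw⟩ := h y.1 y'.1
  have h1 : (act (tt s σ) (w.map some) y).1 = y'.1 := by
    rw [act_tt]; simpa [List.filterMap_map] using hw
  have h2 : ∀ a b : ZMod 2, a = b ∨ a + 1 = b := by decide
  rcases h2 (act (tt s σ) (w.map some) y).2 y'.2 with h3 | h3
  · exact ⟨_, Prod.ext h1 h3⟩
  · exact ⟨none :: w.map some, Prod.ext h1 h3⟩

lemma tt_ne {s : ι → X → X} (σ : X → ι → ZMod 2) {g : ℕ} (hf : Free s (g + 2))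
    (k : Option ι) (y : X × ZMod 2) : tt s σ k y ≠ y := by
  cases k with
  | none => exact fun h => by simpa [tt] using congrArg Prod.snd h
  | some k => exact fun h => hf y.1 [k] (by simp) (by simp) (by simp) (congrArg Prod.fst h)

lemma tt_inj {s : ι → X → X} (σ : X → ι → ZMod 2) {g : ℕ} (hs : ∀ k z, s k (s k z) = z)
    (hf : Free s (g + 2)) (y : X × ZMod 2) (k j : Option ι) (h : tt s σ k y = tt s σ j y) :
    k = j := by
  have h1 := congrArg Prod.fst h
  cases k with
  | none =>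
    cases j with
    | none => rfl
    | some j => exact absurd h1.symm (hf y.1 [j] (by simp) (by simp) (by simp))
  | some k =>
    cases j with
    | none => exact absurd h1 (hf y.1 [k] (by simp) (by simp) (by simp))
    | some j =>
      by_contra hc
      refine hf y.1 [j, k] (by simpa using fun h => hc (by rw [h])) (by simp) (by simp) ?_
      have h2 : s k y.1 = s j y.1 := h1
      simp [h2, hs]

end tw

end Pool.Agent.H.MP_891b03_co
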