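import Mathlib
import Pool.Agent.H.MP_891b03_co.A

set_option autoImplicit false
set_option linter.unusedSectionVars false

namespace Pool.Agent.H.MP_891b03_co

open Finset SimpleGraph

lemma core {κ Y W : Type} [Fintype κ] [Fintype Y] [DecidableEq κ] [DecidableEq Y] [DecidableEq W]
    [Nonempty W] (t : κ → Y → Y) (ht : ∀ k y, t k (t k y) = y) (h1 : ∀ k y, t k y ≠ y)
    (h2 : ∀ y k j, t k y = t j y → k = j) (α : ℕ)
    (hα : ∀ I : Finset Y, (∀ y ∈ I, ∀ k, t k y ∉ I) → I.card ≤ α)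
    (SA : Y → Finset W) (SB : Y × κ → Finset W) (φ : W → Y) (bad : Finset (Y × κ))
    (hb : ∀ d ∉ bad, (∃ w ∈ SA d.1, w ∈ SB d) ∧ ∃ w ∈ SA (t d.2 d.1), w ∈ SB d)
    (hφ : ∀ y k w, w ∈ SA y → w ∈ SA (t k y) → w ∈ SB (y, k) → φ w = y ∨ φ w = t k y) :
    3 * (Fintype.card Y * Fintype.card κ) + 2 * Fintype.card Y ≤
      2 * (∑ y, (SA y).card + ∑ d, (SB d).card) + 4 * bad.card + 2 * α := by
  classical
  let r : Y × κ → Y × κ := fun d => (t d.2 d.1, d.2)
  have hr : ∀ d, r (r d) = d := fun d => by simp [r, ht]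
  let P : Y × κ → W → Prop := fun d w =>
    w ∈ SA d.1 ∧ w ∈ SA (t d.2 d.1) ∧ (w ∈ SB d ∨ w ∈ SB (r d))
  have hP : ∀ d, P (r d) = P d := fun d => by
    funext w
    simp only [P, hr]
    simp only [r, ht]
    exact propext (by tauto)
  let w : Y × κ → W := fun d => Classical.epsilon (P d)
  have hw : ∀ d, w (r d) = w d := fun d => by simp only [w, hP]
  let F : Finset (Y × κ) := univ.filter fun d => ∃ x, P d x
  let N : Finset (Y × κ) := univ.filter fun d => ¬ ∃ x, P d x
  have hF : ∀ d ∈ F, P d (w d) := fun d hd => Classical.epsilon_spec (mem_filter.1 hd).2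
  have hF1 : ∀ d ∈ F, r d ∈ F := fun d hd => by
    simp only [F, mem_filter, mem_univ, true_and, hP] at hd ⊢; exact hd
  have hN1 : ∀ d ∈ N, r d ∈ N := fun d hd => by
    simp only [N, mem_filter, mem_univ, true_and, hP] at hd ⊢; exact hd
  have hF2 : ∀ d ∈ F, φ (w d) = d.1 ∨ φ (w d) = t d.2 d.1 := fun d hd => by
    obtain ⟨a, b, c | c⟩ := hF d hd
    · exact hφ _ _ _ a b c
    · have := hφ _ d.2 _ b (by rw [ht]; exact a) c
      rw [ht] at this
      exact this.symm
  have e0 : F.card + N.card = Fintype.card Y * Fintype.card κ := by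
    rw [card_filter_add_card_filter_not, card_univ, Fintype.card_prod]
  have e1 : Fintype.card Y * Fintype.card κ + N.card ≤ ∑ d, (SB d).card + 2 * bad.card := by
    have : ∀ d, 1 + (if d ∈ N then 1 else 0) ≤ (SB d).card + 2 * if d ∈ bad then 1 else 0 := by
      intro d
      by_cases h : d ∈ bad
      · split_ifs <;> omega
      obtain ⟨⟨a, ha, ha'⟩, b, hb1, hb'⟩ := hb d h
      rw [if_neg h]
      split_ifs with h3
      · have : a ≠ b := by
          rintro rfl
          exact (mem_filter.1 h3).2 ⟨a, ha, hb1, .inl ha'⟩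
        have := one_lt_card.2 ⟨a, ha', b, hb', this⟩
        omega
      · have := card_pos.2 ⟨a, ha'⟩
        omega
    have := sum_le_sum (s := univ) fun d _ => this d
    simpa [sum_add_distrib, ← mul_sum, mul_comm] using this
  let F1 := F.filter fun d => φ (w d) = t d.2 d.1
  have e2 : F.card ≤ 2 * F1.card := half F r _ hr hF1 fun d hd => by
    rw [hw]
    simp only [r, ht]
    exact (hF2 d hd).symm
  let C : Finset Y := univ.filter fun y => ∃ k, (y, k) ∈ F ∧ φ (w (y, k)) = y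
  have e3 : F1.card + C.card ≤ ∑ y, (SA y).card := by
    have : ∀ y, (univ.filter fun k => (y, k) ∈ F1).card + (if y ∈ C then 1 else 0) ≤
        (SA y).card := by
      intro y
      have i1 : Set.InjOn (fun k => w (y, k)) (univ.filter fun k => (y, k) ∈ F1 : Finset κ) := by
        intro k hk j hj hkj
        have a := (mem_filter.1 (mem_filter.1 (mem_coe.1 hk)).2).2
        have b := (mem_filter.1 (mem_filter.1 (mem_coe.1 hj)).2).2
        exact h2 y k j (a.symm.trans ((congrArg φ hkj).trans b))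
      have i2 : ∀ k ∈ (univ.filter fun k => (y, k) ∈ F1 : Finset κ), w (y, k) ∈ SA y ∧
          φ (w (y, k)) ≠ y := fun k hk => by
        have a := mem_filter.1 (mem_filter.1 hk).2
        exact ⟨(hF _ a.1).1, a.2 ▸ h1 k y⟩
      split_ifs with h3
      · obtain ⟨k, hk, hk'⟩ := (mem_filter.1 h3).2
        have := card_le_card_of_injOn (t := (SA y).erase (w (y, k))) (fun k => w (y, k))
          (fun j hj => mem_coe.2 (mem_erase.2
            ⟨fun h => (i2 j hj).2 ((congrArg φ h).trans hk'), (i2 j hj).1⟩)) i1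
        have := card_erase_add_one (hF _ hk).1
        simp only at this
        omega
      · exact card_le_card_of_injOn _ (fun j hj => (i2 j hj).1) i1
    have := sum_le_sum (s := univ) fun y _ => this y
    rw [sum_add_distrib] at this
    have a : ∑ y, (univ.filter fun k => (y, k) ∈ F1).card = F1.card := by
      simp only [card_filter]
      rw [← Fintype.sum_prod_type' fun y k => if (y, k) ∈ F1 then 1 else 0]
      simp
    simpa [a] using this
  let o := Fintype.equivFin Y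
  let N1 := N.filter fun d => o d.1 < o (t d.2 d.1)
  have e4 : 2 * N1.card ≤ N.card := by
    have a := half N r (fun d => ¬ o d.1 < o (t d.2 d.1)) hr hN1 fun d _ => by
      simp only [r, ht]
      omega
    have := card_filter_add_card_filter_not (s := N) fun d => o d.1 < o (t d.2 d.1)
    simp only [N1]
    omega
  have e5 : Fintype.card Y ≤ α + C.card + N1.card := by
    have a := hα (univ \ (C ∪ N1.image Prod.fst)) fun y hy k hk => by
      simp only [mem_sdiff, mem_univ, true_and, mem_union, not_or] at hy hk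
      by_cases h : (y, k) ∈ F
      · rcases hF2 _ h with b | b
        · exact hy.1 (mem_filter.2 ⟨mem_univ _, k, h, b⟩)
        · exact hk.1 (mem_filter.2 ⟨mem_univ _, k, hF1 _ h, (congrArg φ (hw (y, k))).trans b⟩)
      · have h' : (y, k) ∈ N := by simpa [N, F] using h
        rcases lt_or_gt_of_ne (o.injective.ne (h1 k y)) with b | b
        · exact hk.2 (mem_image.2 ⟨r (y, k), mem_filter.2 ⟨hN1 _ h', by simpa [r, ht] using b⟩,
            rfl⟩)
        · exact hy.2 (mem_image.2 ⟨(y, k), mem_filter.2 ⟨h', b⟩, rfl⟩)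
    have b := le_card_sdiff (C ∪ N1.image Prod.fst) univ
    have c := card_union_le C (N1.image Prod.fst)
    have d := card_image_le (s := N1) (f := Prod.fst)
    rw [card_univ] at b
    omega
  omega

section blow
variable {κ Y V : Type} {M : ℕ} (t : κ → Y → Y) (e : V ≃ Y × Option κ × Fin M)

def rel (a b : V) : Prop := (e a).2.1 = none ∧
  ∃ k, (e b).2.1 = some k ∧ ((e b).1 = (e a).1 ∨ (e b).1 = t k (e a).1)

def G : SimpleGraph V := fromRel (rel t e)

lemma G_adj {a b : V} : (G t e).Adj a b ↔ rel t e a b ∨ rel t e b a := by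
  refine ⟨fun h => h.2, fun h => ⟨?_, h⟩⟩
  rintro rfl
  obtain ⟨a, k, b, -⟩ := h.elim id id
  simp [a] at b

variable (ht : ∀ k y, t k (t k y) = y)
include ht

lemma adj1 (y : Y) (k : κ) (i j : Fin M) :
    (G t e).Adj (e.symm (y, none, i)) (e.symm (y, some k, j)) ∧
      (G t e).Adj (e.symm (t k y, none, i)) (e.symm (y, some k, j)) :=
  ⟨(G_adj t e).2 (.inl (by simp [rel])), (G_adj t e).2 (.inl (by simp [rel, ht]))⟩

lemma conn [Nonempty κ] [Nonempty Y] (hM : 0 < M) (htr : ∀ y y', ∃ p, act t p y = y') :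
    (G t e).Connected := by
  obtain ⟨k0⟩ := ‹Nonempty κ›
  obtain ⟨y0⟩ := ‹Nonempty Y›
  let z : Fin M := ⟨0, hM⟩
  have h1 : ∀ v, (G t e).Reachable v (e.symm ((e v).1, none, z)) := by
    intro v
    obtain ⟨⟨y, _ | k, i⟩, rfl⟩ := e.symm.surjective v
    · simpa using (adj1 t e ht y k0 i z).1.reachable.trans (adj1 t e ht y k0 z z).1.symm.reachable
    · simpa using (adj1 t e ht y k z i).1.symm.reachable
  have h2 : ∀ p y, (G t e).Reachable (e.symm (y, none, z)) (e.symm (act t p y, none, z)) := by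
    intro p y
    induction p with
    | nil => rfl
    | cons k p ih =>
      exact ih.trans ((adj1 t e ht _ k z z).1.reachable.trans (adj1 t e ht _ k z z).2.symm.reachable)
  have : Nonempty V := ⟨e.symm (y0, none, z)⟩
  refine ⟨fun a b => ?_⟩
  obtain ⟨p, hp⟩ := htr (e a).1 (e b).1
  exact (h1 a).trans ((hp ▸ h2 p _).trans (h1 b).symm)

lemma deg [Fintype κ] (v : V) : ((G t e).neighborSet v).ncard ≤ 2 * Fintype.card κ * M := by
  let f : Bool × κ × Fin M → V := fun x => match (e v).2.1 with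
    | none => e.symm (if x.1 then (e v).1 else t x.2.1 (e v).1, some x.2.1, x.2.2)
    | some k => e.symm (if x.1 then (e v).1 else t k (e v).1, none, x.2.2)
  have h : (G t e).neighborSet v ⊆ f '' Set.univ := by
    intro a ha
    obtain ⟨⟨y, o, i⟩, rfl⟩ := e.symm.surjective a
    rcases (G_adj t e).1 ha with ⟨a, k, b, c⟩ | ⟨a, k, b, c⟩
    · simp only [Equiv.apply_symm_apply] at b c
      rcases c with c | c
      · exact ⟨(true, k, i), trivial, by simp [f, a, b, c]⟩
      · exact ⟨(false, k, i), trivial, by simp [f, a, b, c]⟩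
    · simp only [Equiv.apply_symm_apply] at a c
      rcases c with c | c
      · exact ⟨(true, k, i), trivial, by simp [f, a, b, c]⟩
      · exact ⟨(false, k, i), trivial, by simp [f, a, b, c, ht]⟩
  refine (Set.ncard_le_ncard h (Set.toFinite _)).trans ((Set.ncard_image_le).trans ?_)
  simp [Set.ncard_univ, mul_assoc]

lemma step {Y' V' : Type} (t' : κ → Y' → Y') (e' : V' ≃ Y' × Option κ × Fin M)
    (ht' : ∀ k y, t' k (t' k y) = y) {a b : V} (h : (G t e).Adj a b) (a' : V')
    (ha : (e a).2 = (e' a').2) : ∃ o : List κ, o.length ≤ 1 ∧ (e b).1 = act t o (e a).1 ∧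
      (G t' e').Adj a' (e'.symm (act t' o (e' a').1, (e b).2)) := by
  simp only [G_adj] at h ⊢
  rcases h with ⟨a, k, b, c | c⟩ | ⟨a, k, b, c | c⟩
  · exact ⟨[], by simp, c, .inl (by simp [rel, ← ha, a, b])⟩
  · exact ⟨[k], by simp, c, .inl (by simp [rel, ← ha, a, b])⟩
  · exact ⟨[], by simp, c.symm, .inr (by simp [rel, ← ha, a, b])⟩
  · exact ⟨[k], by simp, by simp [c, ht], .inr (by simp [rel, ← ha, a, b, ht'])⟩

lemma iso {Y' V' : Type} (t' : κ → Y' → Y') (e' : V' ≃ Y' × Option κ × Fin M)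
    (ht' : ∀ k y, t' k (t' k y) = y) (hG : (G t e).Connected) (hG' : (G t' e').Connected) (r : ℕ)
    (l : ∀ p q y y', p.length + q.length ≤ 2 * r + 2 →
      (act t p y = act t q y ↔ act t' p y' = act t' q y')) (v : V) (v' : V')
    (hv : (e v).2 = (e' v').2) :
    ∃ φ : {w // (G t e).dist v w ≤ r} ≃ {w // (G t' e').dist v' w ≤ r},
      (∀ a, a.1 = v ↔ (φ a).1 = v') ∧
        ∀ a b, (G t e).Adj a.1 b.1 ↔ (G t' e').Adj (φ a).1 (φ b).1 := by
  refine ball_iso hG hG' (fun n a a' => (e a).2 = (e' a').2 ∧ ∃ p : List κ, p.length ≤ n ∧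
    (e a).1 = act t p (e v).1 ∧ (e' a').1 = act t' p (e' v').1) ⟨hv, [], le_rfl, rfl, rfl⟩
    (fun n m a a' h ⟨h1, p, h2, h3⟩ => ⟨h1, p, h2.trans h, h3⟩) ?_ ?_ ?_ ?_
  · rintro n a a' b - ⟨h1, p, h2, h3, h4⟩ h
    obtain ⟨o, h5, h6, h7⟩ := step t e ht t' e' ht' h a' h1
    exact ⟨_, ⟨by simp, o ++ p, by simp; omega, by simp [h6, h3], by simp [h4]⟩, h7⟩
  · rintro n a' a b - ⟨h1, p, h2, h3, h4⟩ h
    obtain ⟨o, h5, h6, h7⟩ := step t' e' ht' t e ht h a h1.symm
    exact ⟨_, ⟨by simp, o ++ p, by simp; omega, by simp [h3], by simp [h6, h4]⟩, h7⟩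
  · rintro a a' b' ⟨h1, p, h2, h3, h4⟩ ⟨h5, q, h6, h7, h8⟩
    refine e'.injective (Prod.ext ?_ (h1.symm.trans h5))
    rw [h4, h8]
    exact (l p q _ _ (by omega)).1 (h3.symm.trans h7)
  · rintro a b a' ⟨h1, p, h2, h3, h4⟩ ⟨h5, q, h6, h7, h8⟩
    refine e.injective (Prod.ext ?_ (h1.trans h5.symm))
    rw [h3, h7]
    exact (l p q _ _ (by omega)).2 (h4.symm.trans h8)

lemma upper [Nonempty κ] [Fintype κ] [Fintype Y] [Fintype V] (hG : (G t e).Connected) (hM : 0 < M)
    (C : Finset Y) (hC : ∀ y k, y ∈ C ∨ t k y ∈ C) :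
    ∃ H : SimpleGraph V, H.Connected ∧ (∀ a b, H.dist a b ≤ 2 * (G t e).dist a b ∧
      (G t e).dist a b ≤ 2 * H.dist a b) ∧
      H.edgeSet.ncard ≤ C.card * (3 * Fintype.card κ + 1) * M := by
  let z : Fin M := ⟨0, hM⟩
  let c : Y → V := fun y => e.symm (y, none, z)
  let f : Y → Option κ ⊕ κ ⊕ κ → Fin M → V := fun y o i => match o with
    | .inl o => e.symm (y, o, i)
    | .inr (.inl k) => e.symm (t k y, none, i)
    | .inr (.inr k) => e.symm (t k y, some k, i)
  let H : SimpleGraph V := fromRel fun a b => ∃ y ∈ C, ∃ o i, a = c y ∧ b = f y o i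
  have h0 : ∀ y ∈ C, ∀ o i, ∃ p : H.Walk (c y) (f y o i), p.length ≤ 1 := by
    intro y hy o i
    by_cases h : c y = f y o i
    · exact ⟨.copy .nil rfl h, by simp⟩
    · exact ⟨.cons ⟨h, .inl ⟨y, hy, o, i, rfl, rfl⟩⟩ .nil, by simp⟩
  have h1 : ∀ a b, rel t e a b → ∃ p : H.Walk a b, p.length ≤ 2 := by
    intro a b h
    obtain ⟨⟨y, o, i⟩, rfl⟩ := e.symm.surjective a
    obtain ⟨⟨y', o', j⟩, rfl⟩ := e.symm.surjective b
    simp only [rel, Equiv.apply_symm_apply] at h
    obtain ⟨rfl, k, rfl, h⟩ := h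
    rcases hC y k with h1 | h1
    · obtain ⟨p, hp⟩ := h0 y h1 (.inl none) i
      rcases h with rfl | rfl
      · obtain ⟨q, hq⟩ := h0 _ h1 (.inl (some k)) j
        exact ⟨p.reverse.append q, by simp; omega⟩
      · obtain ⟨q, hq⟩ := h0 _ h1 (.inr (.inr k)) j
        exact ⟨p.reverse.append q, by simp; omega⟩
    · obtain ⟨x, rfl⟩ : ∃ x, y = t k x := ⟨_, (ht k y).symm⟩
      rw [ht] at h h1
      obtain ⟨p, hp⟩ := h0 x h1 (.inr (.inl k)) i
      rcases h with rfl | rfl
      · obtain ⟨q, hq⟩ := h0 _ h1 (.inr (.inr k)) j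
        exact ⟨p.reverse.append q, by simp; omega⟩
      · obtain ⟨q, hq⟩ := h0 _ h1 (.inl (some k)) j
        exact ⟨p.reverse.append q, by simp; omega⟩
  have h2 : ∀ a b, (G t e).Adj a b → ∃ p : H.Walk a b, p.length ≤ 2 := by
    intro a b h
    rcases (G_adj t e).1 h with h | h
    · exact h1 a b h
    · obtain ⟨p, hp⟩ := h1 b a h
      exact ⟨p.reverse, by simpa⟩
  have hH : H.Connected := by
    have := hG.nonempty
    refine ⟨fun a b => ?_⟩
    obtain ⟨p⟩ := hG a b
    induction p with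
    | nil => rfl
    | cons h p ih => exact (h2 _ _ h).elim fun q _ => q.reachable.trans ih
  have h3 : ∀ y o i, (G t e).dist (c y) (f y o i) ≤ 2 := by
    intro y o i
    obtain ⟨k0⟩ := ‹Nonempty κ›
    rcases o with (_ | k) | k | k
    · exact dist_le (.cons (adj1 t e ht y k0 z z).1 (.cons (adj1 t e ht y k0 i z).1.symm .nil))
    · exact (dist_le (.cons (adj1 t e ht y k z i).1 .nil)).trans (by simp)
    · exact dist_le (.cons (adj1 t e ht y k z z).1 (.cons (adj1 t e ht y k i z).2.symm .nil))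
    · have := (adj1 t e ht (t k y) k z i).2
      rw [ht] at this
      exact (dist_le (.cons this .nil)).trans (by simp)
  refine ⟨H, hH, fun a b => ⟨dist_mul hG hH (fun a b h => (h2 a b h).elim fun p hp =>
    (dist_le p).trans hp) a b, dist_mul hH hG (fun a b h => ?_) a b⟩, ?_⟩
  · obtain ⟨y, -, o, i, rfl, rfl⟩ | ⟨y, -, o, i, rfl, rfl⟩ := h.2
    · exact h3 y o i
    · rw [dist_comm]; exact h3 y o i
  · have h : H.edgeSet ⊆ (fun x : C × (Option κ ⊕ κ ⊕ κ) × Fin M =>
        s(c x.1, f x.1 x.2.1 x.2.2)) '' Set.univ := by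
      intro d hd
      induction d using Sym2.ind with
      | _ a b =>
        obtain ⟨y, hy, o, i, rfl, rfl⟩ | ⟨y, hy, o, i, rfl, rfl⟩ := hd.2
        · exact ⟨(⟨y, hy⟩, o, i), trivial, rfl⟩
        · exact ⟨(⟨y, hy⟩, o, i), trivial, Sym2.eq_swap⟩
    refine (Set.ncard_le_ncard h (Set.toFinite _)).trans ((Set.ncard_image_le).trans ?_)
    simp [Set.ncard_univ]
    exact le_of_eq (by ring)

omit ht in
lemma ty {a b : V} (h : (G t e).Adj a b) : (e a).2.1.isSome = !(e b).2.1.isSome := by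
  rcases (G_adj t e).1 h with ⟨a, k, b, -⟩ | ⟨a, k, b, -⟩ <;> simp [a, b]

omit ht in
lemma near (hG : (G t e).Connected) {a b : V} (h : (G t e).dist a b ≤ 2)
    (ha : (e a).2.1 = none) {k : κ} (hb : (e b).2.1 = some k) :
    (e b).1 = (e a).1 ∨ (e b).1 = t k (e a).1 := by
  obtain ⟨p, hp⟩ := (hG a b).exists_walk_length_eq_dist
  rw [← hp] at h
  match p, h with
  | .nil, _ => simp [ha] at hb
  | .cons h1 .nil, _ =>
    rcases (G_adj t e).1 h1 with ⟨-, j, b, c⟩ | ⟨a, -⟩
    · obtain rfl : k = j := by simpa [hb] using b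
      exact c
    · simp [a] at hb
  | .cons h1 (.cons h2 .nil), _ =>
    have := ty t e h1
    have := ty t e h2
    simp_all
  | .cons _ (.cons _ (.cons _ _)), h => simp at h

end blow

end Pool.Agent.H.MP_891b03_co
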