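import Mathlib
import Pool.Agent.H.MP_891b03_co.B

set_option autoImplicit false
set_option linter.unusedSectionVars false

namespace Pool.Agent.H.MP_891b03_co

open Finset SimpleGraph

lemma heavy {V : Type} [Fintype V] [DecidableEq V] (G H : SimpleGraph V) (Δ K : ℕ)
    (hΔ : ∀ v, (G.neighborSet v).ncard ≤ Δ) (hH : H.Connected)
    (hS : ∀ a b, G.Adj a b → H.dist a b ≤ 2) :
    ∃ (h : ℕ) (S : V → Finset V) (B : Finset (V × V)), h * K ≤ 2 * H.edgeSet.ncard ∧
      (∀ a, ∀ w ∈ S a, H.Adj a w) ∧ ∑ a, (S a).card ≤ H.edgeSet.ncard ∧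
      (∀ a b, G.Adj a b → (a, b) ∉ B → ∃ w ∈ S a, w ∈ S b) ∧
      B.card ≤ 2 * h * Δ + Fintype.card V * (K + K * K) := by
  classical
  have hm : H.edgeSet.ncard = H.edgeFinset.card := by
    rw [← Set.ncard_coe_finset, coe_edgeFinset]
  have hΔ' : ∀ v, (G.neighborFinset v).card ≤ Δ := fun v => by
    rw [← Set.ncard_coe_finset, coe_neighborFinset]; exact hΔ v
  let Hv : Finset V := univ.filter fun v => K < H.degree v
  let S : V → Finset V := fun a => if a ∈ Hv then ∅ else (H.neighborFinset a).filter (· ∈ Hv)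
  have hS' : ∀ a w, w ∈ S a ↔ a ∉ Hv ∧ H.Adj a w ∧ w ∈ Hv := fun a w => by
    simp only [S]
    split_ifs with h <;> simp [h]
  have hl : ∀ a, a ∉ Hv → (H.neighborFinset a).card ≤ K := fun a ha => by
    simpa [Hv] using ha
  let B1 := Hv.biUnion fun a => (G.neighborFinset a).image fun b => (a, b)
  let B2 := Hv.biUnion fun b => (G.neighborFinset b).image fun a => (a, b)
  let B3 := (univ.filter (· ∉ Hv)).biUnion fun a => (H.neighborFinset a ∪
    ((H.neighborFinset a).filter (· ∉ Hv)).biUnion fun w => H.neighborFinset w).image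
      fun b => (a, b)
  refine ⟨Hv.card, S, B1 ∪ B2 ∪ B3, ?_, fun a w h => ((hS' a w).1 h).2.1, ?_, ?_, ?_⟩
  · rw [hm, ← sum_degrees_eq_twice_card_edges]
    refine le_trans ?_ (sum_le_sum_of_subset (subset_univ Hv))
    exact card_nsmul_le_sum Hv _ K fun v hv => (mem_filter.1 hv).2.le
  · rw [hm, ← card_sigma]
    refine card_le_card_of_injOn (fun x => s(x.1, x.2)) (fun x hx => ?_) ?_
    · simpa using ((hS' _ _).1 (mem_sigma.1 hx).2).2.1
    · rintro ⟨a, w⟩ h ⟨b, x⟩ h' hh
      have h1 := (hS' _ _).1 (mem_sigma.1 h).2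
      have h2 := (hS' _ _).1 (mem_sigma.1 h').2
      rcases Sym2.eq_iff.1 hh with ⟨rfl, rfl⟩ | ⟨rfl, rfl⟩
      · rfl
      · exact absurd h1.2.2 h2.1
  · intro a b hab hB
    simp only [mem_union, not_or] at hB
    have ha : a ∉ Hv := fun h => hB.1.1 (mem_biUnion.2 ⟨a, h, mem_image.2 ⟨b, by simpa, rfl⟩⟩)
    have hb : b ∉ Hv := fun h =>
      hB.1.2 (mem_biUnion.2 ⟨b, h, mem_image.2 ⟨a, by simpa using hab.symm, rfl⟩⟩)
    have h3 : b ∉ H.neighborFinset a ∪
        ((H.neighborFinset a).filter (· ∉ Hv)).biUnion fun w => H.neighborFinset w := fun h =>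
      hB.2 (mem_biUnion.2 ⟨a, by simpa using ha, mem_image.2 ⟨b, h, rfl⟩⟩)
    obtain ⟨p, hp⟩ := (hH a b).exists_walk_length_eq_dist
    have h4 := hS a b hab
    rw [← hp] at h4
    match p, h4 with
    | .nil, _ => exact absurd rfl hab.ne
    | .cons h1 .nil, _ => exact absurd (mem_union_left _ (by simpa)) h3
    | .cons (v := w) h1 (.cons h2 .nil), _ =>
      have hw : w ∈ Hv := by
        by_contra hw
        exact h3 (mem_union_right _ (mem_biUnion.2 ⟨w, mem_filter.2 ⟨by simpa, hw⟩, by simpa⟩))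
      exact ⟨w, (hS' _ _).2 ⟨ha, h1, hw⟩, (hS' _ _).2 ⟨hb, h2.symm, hw⟩⟩
    | .cons _ (.cons _ (.cons _ _)), h => simp at h
  · have b1 : B1.card ≤ Hv.card * Δ :=
      card_biUnion_le_card_mul _ _ _ fun a _ => card_image_le.trans (hΔ' a)
    have b2 : B2.card ≤ Hv.card * Δ :=
      card_biUnion_le_card_mul _ _ _ fun a _ => card_image_le.trans (hΔ' a)
    have b3 : B3.card ≤ Fintype.card V * (K + K * K) := by
      refine (card_biUnion_le_card_mul _ _ (K + K * K) fun a ha => card_image_le.trans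
        ((card_union_le _ _).trans ?_)).trans (Nat.mul_le_mul_right _ (card_le_univ _))
      have h1 := hl a (mem_filter.1 ha).2
      exact add_le_add h1 ((card_biUnion_le_card_mul _ _ K fun w hw => hl w (mem_filter.1 hw).2).trans
        (Nat.mul_le_mul_right _ ((card_filter_le _ _).trans h1)))
    have := card_union_le (B1 ∪ B2) B3
    have := card_union_le B1 B2
    nlinarith

lemma lower {κ Y V : Type} {M : ℕ} (t : κ → Y → Y) (e : V ≃ Y × Option κ × Fin M)
    [Fintype κ] [Fintype Y] [Fintype V] (ht : ∀ k y, t k (t k y) = y) (h1 : ∀ k y, t k y ≠ y)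
    (h2 : ∀ y k j, t k y = t j y → k = j) (α K : ℕ)
    (hα : ∀ I : Finset Y, (∀ y ∈ I, ∀ k, t k y ∉ I) → I.card ≤ α) (hG : (G t e).Connected)
    (H : SimpleGraph V) (hH : H.Connected) (hd : ∀ a b, H.dist a b ≤ 2 * (G t e).dist a b ∧
      (G t e).dist a b ≤ 2 * H.dist a b) :
    ∃ h : ℕ, h * K ≤ 2 * H.edgeSet.ncard ∧
      M * M * (3 * (Fintype.card Y * Fintype.card κ) + 2 * Fintype.card Y) ≤
        2 * (M * H.edgeSet.ncard) + 4 * (2 * h * (2 * Fintype.card κ * M) +
          Fintype.card V * (K + K * K)) + M * M * (2 * α) := by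
  classical
  obtain ⟨h, S, B, a1, a2, a3, a4, a5⟩ := heavy (G t e) H _ K (deg t e ht) hH fun a b h => by
    have := (hd a b).1
    rwa [dist_eq_one_iff_adj.2 h] at this
  have a6 : ∀ a, ∀ w ∈ S a, (G t e).dist a w ≤ 2 := fun a w h => by
    have := (hd a w).2
    rwa [dist_eq_one_iff_adj.2 (a2 a w h)] at this
  have := hG.nonempty
  refine ⟨h, a1, ?_⟩
  let A : Y → Fin M → V := fun y i => e.symm (y, none, i)
  let D : Y × κ → Fin M → V := fun d i => e.symm (d.1, some d.2, i)
  let bad : Fin M × Fin M → Finset (Y × κ) := fun x => univ.filter fun d =>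
    (A d.1 x.1, D d x.2) ∈ B ∨ (A (t d.2 d.1) x.1, D d x.2) ∈ B
  have b1 := fun x : Fin M × Fin M => core t ht h1 h2 α hα (fun y => S (A y x.1))
    (fun d => S (D d x.2)) (fun w => (e w).1) (bad x) (fun d hd => by
      simp only [bad, mem_filter, mem_univ, true_and, not_or] at hd
      exact ⟨a4 _ _ (adj1 t e ht _ _ _ _).1 hd.1, a4 _ _ (adj1 t e ht _ _ _ _).2 hd.2⟩)
    fun y k w c1 c2 c3 => by
      rcases hw : (e w).2.1 with _ | j
      · have := near t e hG (a := w) (b := D (y, k) x.2) (k := k)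
          (by rw [dist_comm]; exact a6 _ _ c3) hw (by simp [D])
        simp only [D, Equiv.apply_symm_apply] at this
        exact this.imp Eq.symm fun h => by rw [h, ht]
      · have d1 := near t e hG (a6 _ _ c1) (by simp [A]) hw
        have d2 := near t e hG (a6 _ _ c2) (by simp [A]) hw
        simp only [A, Equiv.apply_symm_apply] at d1 d2
        rcases d1 with d1 | d1
        · exact .inl d1
        rcases d2 with d2 | d2
        · exact .inr d2
        have := congrArg (t j) (d1.symm.trans d2)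
        rw [ht, ht] at this
        exact absurd this.symm (h1 k y)
  have b2 := sum_le_sum (s := univ) fun x _ => b1 x
  have b3 : ∑ x, (bad x).card ≤ B.card := by
    rw [← card_sigma]
    refine le_trans ?_ (card_image_le (f := fun p : V × V =>
      (((e p.1).2.2, (e p.2).2.2), (e p.2).1, (e p.2).2.1)))
    refine card_le_card_of_injOn (fun x => (x.1, x.2.1, some x.2.2)) (fun x hx => ?_) ?_
    · rcases (mem_filter.1 (mem_sigma.1 hx).2).2 with h | h
      · exact mem_coe.2 (mem_image.2 ⟨_, h, by simp [A, D]⟩)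
      · exact mem_coe.2 (mem_image.2 ⟨_, h, by simp [A, D]⟩)
    · rintro ⟨x, y, k⟩ - ⟨x', y', k'⟩ - hh
      simp only [Prod.mk.injEq, Option.some.injEq] at hh
      obtain ⟨rfl, rfl, rfl⟩ := hh
      rfl
  have b4 : ∑ x : Fin M × Fin M, (∑ y, (S (A y x.1)).card + ∑ d, (S (D d x.2)).card) =
      M * ∑ a, (S a).card := by
    rw [← e.symm.sum_comp fun a => (S a).card]
    simp only [Fintype.sum_prod_type, Fintype.sum_option, sum_add_distrib, sum_const, card_univ,
      Fintype.card_fin, smul_eq_mul, ← mul_sum, mul_add]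
    congr 2
    · exact sum_comm
    · rw [sum_comm]
      exact sum_congr rfl fun y _ => sum_comm
  simp only [sum_add_distrib, ← mul_sum, sum_const, card_univ, Fintype.card_prod,
    Fintype.card_fin, smul_eq_mul] at b2
  rw [sum_add_distrib] at b4
  rw [b4] at b2
  have b5 := Nat.mul_le_mul_left M a3
  linarith

lemma indep {X : Type} [Fintype X] [Nonempty X] (s : Fin 10 → X → X) (hs : ∀ k x, s k (s k x) = x)
    (hf : ∀ k x, s k x ≠ x) : ∃ σ : X → Fin 10 → ZMod 2, (∀ k x, σ (s k x) k = - σ x k) ∧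
      ∀ I : Finset (X × ZMod 2), (∀ y ∈ I, ∀ k, tt s σ k y ∉ I) →
        I.card ≤ 19 * Fintype.card X / 20 := by
  classical
  let o := Fintype.equivFin X
  let P : X × Fin 10 → Prop := fun d => o d.1 < o (s d.2 d.1)
  let r : X × Fin 10 → X × Fin 10 := fun d => (s d.2 d.1, d.2)
  have hr : ∀ d, r (r d) = d := fun d => by simp [r, hs]
  have c1 := half univ r P hr (by simp) fun d _ => by
    simp only [P, r, hs]
    exact (lt_or_gt_of_ne (o.injective.ne (hf d.2 d.1))).symm
  rw [card_univ, Fintype.card_prod, Fintype.card_fin, ← Fintype.card_subtype] at c1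
  obtain ⟨τ, hτ⟩ := frust (R := {d // P d}) (S := X → ZMod 2)
    (fun a d => a (s d.1.2 d.1.1) - a d.1.1 - 1) (Fintype.card X) (by
      have h0 := Fintype.card_pos (α := X)
      have h1 : ((3 : ℝ) / 4) ^ Fintype.card {d // P d} ≤ (3 / 4) ^ (5 * Fintype.card X) :=
        pow_le_pow_of_le_one (by norm_num) (by norm_num)
          (Nat.le_of_mul_le_mul_left (le_trans (by omega) c1) two_pos)
      have h2 : ((2 : ℝ) * 2 * (3 / 4) ^ 5) ^ Fintype.card X < 1 :=
        pow_lt_one₀ (by norm_num) (by norm_num) h0.ne'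
      rw [mul_pow, mul_pow, ← pow_mul] at h2
      simp only [Fintype.card_fun, ZMod.card]
      push_cast
      exact lt_of_le_of_lt (by gcongr) h2)
  let τ' : X × Fin 10 → ZMod 2 := fun d => if h : P d then τ ⟨d, h⟩ else 0
  refine ⟨fun x k => τ' (x, k) - τ' (s k x, k), fun k x => by simp [hs], fun I hI => ?_⟩
  let a : X → ZMod 2 := fun x => if (x, 0) ∈ I then 0 else 1
  let U := I.image Prod.fst
  have z : ∀ b : ZMod 2, b = 0 ∨ b = 1 := by decide
  have u1 : U.card = I.card := card_image_of_injOn fun y hy y' hy' h => by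
    have := hI y hy none
    have z2 : ∀ a b : ZMod 2, a = b ∨ a + 1 = b := by decide
    rcases z2 y.2 y'.2 with h3 | h3
    · exact Prod.ext h h3
    · exact absurd (show (y.1, y.2 + 1) ∈ I by rw [(Prod.ext h h3 : (y.1, y.2 + 1) = y')]; exact hy') this
  have u2 : ∀ x ∈ U, (x, a x) ∈ I := by
    intro x hx
    obtain ⟨⟨x, b⟩, h, rfl⟩ := mem_image.1 hx
    simp only [a]
    split_ifs with h1
    · exact h1
    · rcases z b with rfl | rfl
      exacts [absurd h h1, h]
  let W : Finset (X × Fin 10) := (univ \ U) ×ˢ univ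
  have u3 := (hτ a).trans (card_le_card_of_injOn (t := W ∪ W.image r) Subtype.val
    (fun d hd => by
      have h := (mem_filter.1 hd).2
      by_contra hc
      simp only [coe_union, Set.mem_union, mem_coe, not_or] at hc
      have h1 : d.1.1 ∈ U := by simpa [W] using hc.1
      have h2 : s d.1.2 d.1.1 ∈ U := by
        by_contra h2
        exact hc.2 (mem_image.2 ⟨r d.1, by simpa [W, r] using h2, hr _⟩)
      refine hI _ (u2 _ h1) (some d.1.2) ?_
      have h3 : ¬ P (s d.1.2 d.1.1, d.1.2) := by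
        simp only [P, hs]
        exact not_lt.2 (le_of_lt d.2)
      have h4 : τ' (d.1.1, d.1.2) = τ d := dif_pos d.2
      have h5 : τ' (s d.1.2 d.1.1, d.1.2) = 0 := dif_neg h3
      simp only [tt, h4, h5, h]
      convert u2 _ h2 using 2
      ring) Subtype.val_injective.injOn)
  have u4 := card_union_le W (W.image r)
  have u5 := card_image_le (s := W) (f := r)
  have u6 : W.card = (Fintype.card X - U.card) * 10 := by
    simp [W, card_univ_sdiff]
  have u7 := card_le_univ U
  omega

end Pool.Agent.H.MP_891b03_co
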